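import Pool.Agent.Y787.FV.Main2

/-!
# MP_71509e_al: bipartite posets in free lattices, for every variety of lattices, and in free
# Boolean algebras
-/

namespace Pool.Agent.Results.MP_71509e_al.EveryVariety

open Pool.Agent.Y787.FV

universe u v w w'

/-- **The bipartite posets that embed into free lattices, for all varieties of lattices and for
Boolean algebras.** -/
theorem result (P : Type u) [PartialOrder P] (hP : ¬ ∃ a b c : P, a < b ∧ b < c) :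
    ((∃ (X F : Type (max u v)) (_ : Lattice F) (ι : X → F), IsFreeLattice ι ∧
      ∃ φ : P → F, ∀ p q : P, p ≤ q ↔ φ p ≤ φ q) ↔ HasPointFiniteCover P) ∧
    (∀ E : Set (Term.{0} ℕ × Term.{0} ℕ),
      (∃ (L : Type w') (_ : Lattice L), Satisfies E L ∧ Nontrivial L) →
      ((∃ (X F : Type (max u v)) (_ : Lattice F) (ι : X → F), IsFreeIn E ι ∧
        ∃ φ : P → F, ∀ p q : P, p ≤ q ↔ φ p ≤ φ q) ↔ HasPointFiniteCover P)) ∧
    (∀ (X F : Type w) [Lattice F] (ι : X → F), IsRelativelyFree ι →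
      ((∃ φ : P → F, ∀ p q : P, p ≤ q ↔ φ p ≤ φ q) → HasPointFiniteCover P) ∧
      (Nontrivial F → Infinite X → (∃ j : P → X, Function.Injective j) →
        ((∃ φ : P → F, ∀ p q : P, p ≤ q ↔ φ p ≤ φ q) ↔ HasPointFiniteCover P))) ∧
    ((∃ (X F : Type (max u v)) (_ : BooleanAlgebra F) (ι : X → F), IsFreeBoolean ι ∧
      ∃ φ : P → F, ∀ p q : P, p ≤ q ↔ φ p ≤ φ q) ↔ HasPointFiniteCover P) ∧
    (∀ (X F : Type w) [BooleanAlgebra F] (ι : X → F), IsFreeBoolean ι →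
      ((∃ φ : P → F, ∀ p q : P, p ≤ q ↔ φ p ≤ φ q) → HasPointFiniteCover P) ∧
      (Infinite X → (∃ j : P → X, Function.Injective j) →
        ((∃ φ : P → F, ∀ p q : P, p ≤ q ↔ φ p ≤ φ q) ↔ HasPointFiniteCover P))) := by
  refine ⟨⟨?_, ?_⟩, ?_, ?_, ⟨?_, ?_⟩, ?_⟩
  · rintro ⟨X, F, _, ι, hF, φ, hφ⟩
    exact ne P X F ι hF.rel φ hφ
  · intro hC
    obtain ⟨X, F, _, ι, hF, h⟩ := exists_embedding.{u, 0, v} P hP hC ∅ (L := Prop)
      (fun e he => absurd he (Set.notMem_empty e))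
    exact ⟨X, F, _, ι, hF.free, h⟩
  · rintro E ⟨L, _, hL, hN⟩
    refine ⟨?_, fun hC => exists_embedding.{u, w', v} P hP hC E hL⟩
    rintro ⟨X, F, _, ι, hF, φ, hφ⟩
    exact ne P X F ι hF.rel φ hφ
  · intro X F _ ι hF
    refine ⟨fun ⟨φ, hφ⟩ => ne P X F ι hF φ hφ, ?_⟩
    rintro hN hX ⟨j, hj⟩
    exact ⟨fun ⟨φ, hφ⟩ => ne P X F ι hF φ hφ,
      fun hC => Pool.Agent.Y970.FV.su P hP hC X F ι hF hN hX j hj⟩
  · rintro ⟨X, F, _, ι, hF, φ, hφ⟩
    exact Pool.Agent.Y569.FV.bn P X F ι hF φ hφ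
  · exact fun hC => exists_embedding_boolean.{u, v} P hP hC
  · intro X F _ ι hF
    refine ⟨fun ⟨φ, hφ⟩ => Pool.Agent.Y569.FV.bn P X F ι hF φ hφ, ?_⟩
    rintro hX ⟨j, hj⟩
    exact ⟨fun ⟨φ, hφ⟩ => Pool.Agent.Y569.FV.bn P X F ι hF φ hφ,
      fun hC => Pool.Agent.Y185.FV.bs P hP hC X F ι hF hX j hj⟩

end Pool.Agent.Results.MP_71509e_al.EveryVariety
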